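import Mathlib
import Pool.Agent.N251.GA.Leaves

/-!
# PROJECT GA (helper251), leaf G5 (helper73): the icosahedral map over a ring
-/

set_option autoImplicit false

namespace Pool.Agent.N73.GA

open Pool.Agent.N251.GA

section forms

variable {A : Type} [CommRing A]

/-- the form with the vertices of the icosahedron, up to the factor `x y` -/
def gf (u v : A) : A := u ^ 2 + 11 * u * v - v ^ 2

/-- the form with the centres of the faces -/
def Hf (u v : A) : A :=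
  u ^ 4 + v ^ 4 - 228 * (u ^ 3 * v - u * v ^ 3) + 494 * u ^ 2 * v ^ 2

/-- the form with the midpoints of the edges -/
def Tf (u v : A) : A :=
  u ^ 6 + v ^ 6 + 522 * (u ^ 5 * v - u * v ^ 5) - 10005 * (u ^ 4 * v ^ 2 + u ^ 2 * v ^ 4)

/-- a factor -/
def qf (u v : A) : A :=
  u ^ 4 + 522 * u ^ 3 * v - 10006 * u ^ 2 * v ^ 2 - 522 * u * v ^ 3 + v ^ 4

/-- a factor -/
def of' (x y : A) : A := x ^ 8 - x ^ 6 * y ^ 2 + x ^ 4 * y ^ 4 - x ^ 2 * y ^ 6 + y ^ 8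

theorem ident (u v : A) : 1728 * (u * v * gf u v ^ 5) + Hf u v ^ 3 = Tf u v ^ 2 := by
  unfold gf Hf Tf
  ring

theorem keyid (u v : A) : 5 ^ 5 * (v ^ 3 * (11 * u - v)) =
    -Hf u v + (u ^ 2 - 239 * u * v + 3124 * v ^ 2) * gf u v := by
  unfold gf Hf
  ring

theorem u_sq (u v : A) : u ^ 2 = gf u v - v * (11 * u - v) := by
  unfold gf
  ring

theorem u_four (u v : A) :
    u ^ 4 = Hf u v - (v ^ 3 - 228 * (u ^ 3 - u * v ^ 2) + 494 * u ^ 2 * v) * v := by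
  unfold Hf
  ring

theorem v_four (u v : A) :
    v ^ 4 = Hf u v - (u ^ 3 - 228 * (u ^ 2 * v - v ^ 3) + 494 * u * v ^ 2) * u := by
  unfold Hf
  ring

theorem Tfac (u v : A) : Tf u v = (u ^ 2 + v ^ 2) * qf u v := by
  unfold Tf qf
  ring

theorem ofac (x y : A) : (x ^ 5) ^ 2 + (y ^ 5) ^ 2 = (x ^ 2 + y ^ 2) * of' x y := by
  unfold of'
  ring

variable {B : Type} [CommRing B]

theorem map_gf (φ : A →+* B) (u v : A) : φ (gf u v) = gf (φ u) (φ v) := by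
  simp only [gf, map_add, map_sub, map_mul, map_pow, map_ofNat]

theorem map_Hf (φ : A →+* B) (u v : A) : φ (Hf u v) = Hf (φ u) (φ v) := by
  simp only [Hf, map_add, map_sub, map_mul, map_pow, map_ofNat]

theorem map_qf (φ : A →+* B) (u v : A) : φ (qf u v) = qf (φ u) (φ v) := by
  simp only [qf, map_add, map_sub, map_mul, map_pow, map_ofNat]

theorem map_of (φ : A →+* B) (x y : A) : φ (of' x y) = of' (φ x) (φ y) := by
  simp only [of', map_add, map_sub, map_mul, map_pow]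

theorem hom_gf (t x y : A) : gf ((t * x) ^ 5) ((t * y) ^ 5) = t ^ 10 * gf (x ^ 5) (y ^ 5) := by
  rw [mul_pow, mul_pow]
  unfold gf
  ring

theorem hom_Hf (t x y : A) : Hf ((t * x) ^ 5) ((t * y) ^ 5) = t ^ 20 * Hf (x ^ 5) (y ^ 5) := by
  rw [mul_pow, mul_pow]
  unfold Hf
  ring

theorem hom_qf (t x y : A) : qf ((t * x) ^ 5) ((t * y) ^ 5) = t ^ 20 * qf (x ^ 5) (y ^ 5) := by
  rw [mul_pow, mul_pow]
  unfold qf
  ring

theorem hom_of (t x y : A) : of' (t * x) (t * y) = t ^ 8 * of' x y := by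
  unfold of'
  ring

end forms

/-- lower bound for the icosahedral forms over `ℂ` -/
theorem low2 : ∃ C : ℝ, 0 < C ∧ ∀ p : ℂ × ℂ, ‖p‖ ^ 60 ≤
    C * max ‖1728 * (p.1 * p.2 * gf (p.1 ^ 5) (p.2 ^ 5)) ^ 5‖ ‖Hf (p.1 ^ 5) (p.2 ^ 5) ^ 3‖ := by
  refine hom_lower (fun p => 1728 * (p.1 * p.2 * gf (p.1 ^ 5) (p.2 ^ 5)) ^ 5)
    (fun p => Hf (p.1 ^ 5) (p.2 ^ 5) ^ 3) (by unfold gf; fun_prop) (by unfold Hf; fun_prop) 60
    (by norm_num) ?_ ?_ ?_
  · intro t p
    simp only [Prod.smul_fst, Prod.smul_snd, smul_eq_mul]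
    rw [hom_gf]
    ring
  · intro t p
    simp only [Prod.smul_fst, Prod.smul_snd, smul_eq_mul]
    rw [hom_Hf]
    ring
  · rintro ⟨x, y⟩ h1 h2
    simp only at h1 h2
    have h3 : Hf (x ^ 5) (y ^ 5) = 0 := eq_zero_of_pow_eq_zero h2
    have h4 : x * y * gf (x ^ 5) (y ^ 5) = 0 := by
      have := (mul_eq_zero.1 h1).resolve_left (by norm_num)
      exact eq_zero_of_pow_eq_zero this
    have hxy : x = 0 → y = 0 := by
      intro hx
      have h5 := v_four (x ^ 5) (y ^ 5)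
      rw [h3, hx] at h5
      have h6 : (y ^ 5) ^ 4 = 0 := by rw [h5]; ring
      exact eq_zero_of_pow_eq_zero (eq_zero_of_pow_eq_zero h6)
    have hyx : y = 0 → x = 0 := by
      intro hy
      have h5 := u_four (x ^ 5) (y ^ 5)
      rw [h3, hy] at h5
      have h6 : (x ^ 5) ^ 4 = 0 := by rw [h5]; ring
      exact eq_zero_of_pow_eq_zero (eq_zero_of_pow_eq_zero h6)
    rcases mul_eq_zero.1 h4 with h5 | h5
    · rcases mul_eq_zero.1 h5 with h6 | h6
      · rw [h6, hxy h6]; rfl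
      · rw [h6, hyx h6]; rfl
    · have h6 := keyid (x ^ 5) (y ^ 5)
      rw [h3, h5, neg_zero, mul_zero, zero_add] at h6
      have h7 := (mul_eq_zero.1 h6).resolve_left (by norm_num)
      rcases mul_eq_zero.1 h7 with h8 | h8
      · have h9 : y = 0 := eq_zero_of_pow_eq_zero (eq_zero_of_pow_eq_zero h8)
        rw [h9, hyx h9]; rfl
      · have h9 := u_sq (x ^ 5) (y ^ 5)
        rw [h5, h8, mul_zero, sub_zero] at h9
        have h10 : x = 0 := eq_zero_of_pow_eq_zero (eq_zero_of_pow_eq_zero h9)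
        rw [h10, hxy h10]; rfl

theorem low1 : ∃ C : ℝ, 0 < C ∧ ∀ p : ℂ × ℂ, ‖p‖ ^ 2 ≤
    C * max ‖p.1 ^ 2 - p.2 ^ 2‖ ‖2 * p.1 * p.2‖ := by
  refine hom_lower (fun p => p.1 ^ 2 - p.2 ^ 2) (fun p => 2 * p.1 * p.2) (by fun_prop)
    (by fun_prop) 2 (by norm_num) ?_ ?_ ?_
  · intro t p
    simp only [Prod.smul_fst, Prod.smul_snd, smul_eq_mul]
    ring
  · intro t p
    simp only [Prod.smul_fst, Prod.smul_snd, smul_eq_mul]
    ring
  · rintro ⟨x, y⟩ h1 h2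
    simp only at h1 h2
    rcases mul_eq_zero.1 h2 with h3 | h3
    · have h4 : x = 0 := (mul_eq_zero.1 h3).resolve_left (by norm_num)
      rw [h4] at h1
      have h5 : y ^ 2 = 0 := by linear_combination -h1
      rw [h4, eq_zero_of_pow_eq_zero h5]; rfl
    · rw [h3] at h1
      have h5 : x ^ 2 = 0 := by linear_combination h1
      rw [h3, eq_zero_of_pow_eq_zero h5]; rfl

theorem up1 : ∃ C : ℝ, 0 < C ∧ ∀ p : ℂ × ℂ,
    ‖gf (p.1 ^ 5) (p.2 ^ 5) * Hf (p.1 ^ 5) (p.2 ^ 5) * of' p.1 p.2 * qf (p.1 ^ 5) (p.2 ^ 5)‖ ≤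
      C * ‖p‖ ^ 58 := by
  refine hom_upper (fun p => gf (p.1 ^ 5) (p.2 ^ 5) * Hf (p.1 ^ 5) (p.2 ^ 5) * of' p.1 p.2 *
    qf (p.1 ^ 5) (p.2 ^ 5)) (by unfold gf Hf of' qf; fun_prop) 58 ?_
  intro t p
  simp only [Prod.smul_fst, Prod.smul_snd, smul_eq_mul]
  rw [hom_gf, hom_Hf, hom_of, hom_qf]
  ring

theorem t : LeafG5 := by
  intro R _ D N hN habc
  have := isDomain D
  have := charZero D
  refine near D (30 * N) (by omega) ?_
  obtain ⟨C₁, hC₁, hlow1⟩ := low1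
  obtain ⟨C₂, hC₂, hlow2⟩ := low2
  obtain ⟨C₄, hC₄, hup1⟩ := up1
  obtain ⟨K, hK⟩ : ∃ K : ℝ, K = 1 + 2 ^ 120 * C₁ ^ 60 * C₂ + 4 * C₄ * 2 ^ 58 := ⟨_, rfl⟩
  have hK1 : 1 ≤ K := by rw [hK]; have : 0 ≤ 2 ^ 120 * C₁ ^ 60 * C₂ := by positivity
                         linarith
  refine transferTri D 120 119 K hK1 one_pos (by norm_num) ?_ habc
  rintro ⟨Z, Y, c⟩ ht hdvd
  obtain ⟨hab, hsum, ha, hb, hc⟩ := ht
  simp only at hab hsum ha hb hc hdvd
  right
  obtain ⟨X, hX⟩ : ∃ X : R, X = -c := ⟨_, rfl⟩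
  have hc' : c = -X := by rw [hX]; ring
  have hXZY : X = Z + Y := by rw [hX]; linear_combination -hsum
  have hY : Y = X - Z := by rw [hXZY]; ring
  have hX0 : X ≠ 0 := by rw [hX]; exact neg_ne_zero.2 hc
  have hXZ : IsCoprime X Z := by
    rw [hXZY]
    have h1 : IsCoprime Y Z := hab.symm
    have h2 := h1.add_mul_left_left 1
    rw [mul_one] at h2
    rwa [add_comm]
  have h30 : ((30 : ℕ) : R) ∣ Z := by
    refine dvd_trans ⟨(N : R), ?_⟩ hdvd
    push_cast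
    ring
  have hZu : ¬ IsUnit Z := not_unit_of_dvd D (by norm_num) h30
  have hNZ : (N : R) ∣ Z := by
    refine dvd_trans ⟨30, ?_⟩ hdvd
    push_cast
    ring
  obtain ⟨x, hx⟩ : ∃ x : R, x = Y * (X + Z) := ⟨_, rfl⟩
  obtain ⟨y, hy⟩ : ∃ y : R, y = 2 * X * Z := ⟨_, rfl⟩
  have hx' : x = X ^ 2 - Z ^ 2 := by rw [hx, hY]; ring
  obtain ⟨u, hu⟩ : ∃ u : R, u = x ^ 5 := ⟨_, rfl⟩
  obtain ⟨v, hv⟩ : ∃ v : R, v = y ^ 5 := ⟨_, rfl⟩
  obtain ⟨g, hg⟩ : ∃ g : R, g = gf u v := ⟨_, rfl⟩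
  obtain ⟨H, hH⟩ : ∃ H : R, H = Hf u v := ⟨_, rfl⟩
  obtain ⟨T, hT⟩ : ∃ T : R, T = Tf u v := ⟨_, rfl⟩
  obtain ⟨q, hq⟩ : ∃ q : R, q = qf u v := ⟨_, rfl⟩
  obtain ⟨o, ho⟩ : ∃ o : R, o = of' x y := ⟨_, rfl⟩
  obtain ⟨f, hf⟩ : ∃ f : R, f = x * y * g := ⟨_, rfl⟩
  obtain ⟨S, hS⟩ : ∃ S : R, S = X ^ 2 + Z ^ 2 := ⟨_, rfl⟩
  have hid : 1728 * f ^ 5 + H ^ 3 = T ^ 2 := by
    have h1 := ident u v
    rw [← hg, ← hH, ← hT] at h1
    rw [← h1, hf, hu, hv]
    ring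
  have hTfac : T = S ^ 2 * o * q := by
    have h1 : x ^ 2 + y ^ 2 = S ^ 2 := by rw [hx', hy, hS]; ring
    rw [hT, Tfac, hu, hv, ofac, h1, ← ho, ← hu, ← hv, ← hq]
  -- nonvanishing
  have hXZ0 : X + Z ≠ 0 := by
    intro h0
    have h1 : X = -Z := by linear_combination h0
    rw [h1, IsCoprime.neg_left_iff] at hXZ
    exact hZu (isCoprime_self.1 hXZ)
  have hx0 : x ≠ 0 := by rw [hx]; exact mul_ne_zero hb hXZ0
  have hy0 : y ≠ 0 := by rw [hy]; exact mul_ne_zero (mul_ne_zero two_ne_zero hX0) ha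
  have hZy : Z ∣ y := by rw [hy]; exact Dvd.intro_left _ rfl
  have hZv : Z ∣ v := by rw [hv]; exact hZy.trans (dvd_pow_self y (by norm_num))
  have hg0 : g ≠ 0 := by
    intro h0
    have h1 : Z ∣ X ^ 20 := by
      have e1 : X ^ 20 = g - v * (11 * u - v) - (x ^ 10 - (X ^ 2) ^ 10) := by
        have h2 := u_sq u v
        rw [← hg] at h2
        rw [← h2, hu]
        ring
      rw [e1]
      refine dvd_sub (dvd_sub ?_ (hZv.mul_right _)) ?_
      · rw [h0]; exact dvd_zero _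
      · refine dvd_trans ⟨-Z, ?_⟩ (sub_dvd_pow_sub_pow x (X ^ 2) 10)
        rw [hx']
        ring
    exact hZu ((hXZ.pow_left (m := 20)).symm.isUnit_of_dvd h1)
  have hf0 : f ≠ 0 := by rw [hf]; exact mul_ne_zero (mul_ne_zero hx0 hy0) hg0
  -- coprimality
  have hcop : IsCoprime (1728 * f ^ 5) (H ^ 3) := by
    apply isCoprime_of_max
    intro P hPm h1 h2
    have hPp := hPm.isPrime
    have hHP : H ∈ P := hPp.mem_of_pow_mem _ h2
    have h30P : (30 : R) ∈ P → Z ∈ P := fun h => mem_of_dvd h30 (by push_cast; exact h)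
    have small : ∀ r : R, r ∣ 30 ^ 6 → r ∈ P → Z ∈ P := fun r hr h =>
      h30P (hPp.mem_of_pow_mem _ (mem_of_dvd hr h))
    have notboth : x ∈ P → y ∈ P → False := by
      intro k1 k2
      have h3 : X ∈ P ∨ Z ∈ P := by
        rw [hy] at k2
        rcases hPp.mem_or_mem k2 with k2 | k2
        · rcases hPp.mem_or_mem k2 with k2 | k2
          · exact Or.inr (small 2 ⟨2 ^ 5 * 15 ^ 6, by norm_num⟩ k2)
          · exact Or.inl k2
        · exact Or.inr k2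
      rw [hx] at k1
      rcases hPp.mem_or_mem k1 with k1 | k1
      · rcases h3 with h3 | h3
        · refine not_both hXZ hPm h3 ?_
          have e : Z = X - Y := by rw [hY]; ring
          rw [e]; exact P.sub_mem h3 k1
        · refine not_both hXZ hPm ?_ h3
          rw [hXZY]; exact P.add_mem h3 k1
      · rcases h3 with h3 | h3
        · refine not_both hXZ hPm h3 ?_
          have e : Z = (X + Z) - X := by ring
          rw [e]; exact P.sub_mem k1 h3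
        · refine not_both hXZ hPm ?_ h3
          have e : X = (X + Z) - Z := by ring
          rw [e]; exact P.sub_mem k1 h3
    have case_y : y ∈ P → False := by
      intro k1
      have k2 : v ∈ P := by rw [hv]; exact P.pow_mem_of_mem k1 5 (by norm_num)
      have k3 : u ^ 4 ∈ P := by
        rw [u_four u v, ← hH]
        exact P.sub_mem hHP (P.mul_mem_left _ k2)
      have k4 := hPp.mem_of_pow_mem _ k3
      rw [hu] at k4
      exact notboth (hPp.mem_of_pow_mem _ k4) k1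
    have case_x : x ∈ P → False := by
      intro k1
      have k2 : u ∈ P := by rw [hu]; exact P.pow_mem_of_mem k1 5 (by norm_num)
      have k3 : v ^ 4 ∈ P := by
        rw [v_four u v, ← hH]
        exact P.sub_mem hHP (P.mul_mem_left _ k2)
      have k4 := hPp.mem_of_pow_mem _ k3
      rw [hv] at k4
      exact notboth k1 (hPp.mem_of_pow_mem _ k4)
    have case_Z : Z ∈ P → False := fun h => case_y (mem_of_dvd hZy h)
    rcases hPp.mem_or_mem h1 with h3 | h3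
    · exact case_Z (small 1728 ⟨421875, by norm_num⟩ h3)
    · have h4 := hPp.mem_of_pow_mem _ h3
      rw [hf] at h4
      rcases hPp.mem_or_mem h4 with h5 | h5
      · rcases hPp.mem_or_mem h5 with h6 | h6
        · exact case_x h6
        · exact case_y h6
      · have h6 : 5 ^ 5 * (v ^ 3 * (11 * u - v)) ∈ P := by
          rw [keyid u v, ← hg, ← hH]
          exact P.add_mem (P.neg_mem hHP) (P.mul_mem_left _ h5)
        rcases hPp.mem_or_mem h6 with h7 | h7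
        · exact case_Z (small 5 ⟨5 ^ 5 * 6 ^ 6, by norm_num⟩ (hPp.mem_of_pow_mem _ h7))
        · rcases hPp.mem_or_mem h7 with h8 | h8
          · have h9 := hPp.mem_of_pow_mem _ h8
            rw [hv] at h9
            exact case_y (hPp.mem_of_pow_mem _ h9)
          · have h9 : u ^ 2 ∈ P := by
              rw [u_sq u v, ← hg]
              exact P.sub_mem h5 (P.mul_mem_left _ h8)
            have h10 := hPp.mem_of_pow_mem _ h9
            rw [hu] at h10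
            exact case_x (hPp.mem_of_pow_mem _ h10)
  have htri0 : Tri (1728 * f ^ 5, H ^ 3, -T ^ 2) :=
    tri_of D hcop (by rw [hid]; ring) (mul_ne_zero (by norm_num) (pow_ne_zero _ hf0)) (n := 1728)
      (by norm_num) ⟨f ^ 5, by push_cast; ring⟩
  have hH0 : H ≠ 0 := fun h0 => htri0.2.2.2.1 (by simp only; rw [h0]; simp)
  have hT0 : T ≠ 0 := fun h0 => htri0.2.2.2.2 (by simp only; rw [h0]; simp)
  have htri : Tri (T ^ 2, -H ^ 3, -(1728 * f ^ 5)) := by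
    refine ⟨?_, ?_, pow_ne_zero _ hT0, neg_ne_zero.2 (pow_ne_zero _ hH0), neg_ne_zero.2 htri0.2.2.1⟩
    · simp only
      rw [IsCoprime.neg_right_iff, ← hid]
      have h1 := hcop.add_mul_left_left 1
      rwa [mul_one] at h1
    · simp only
      rw [← hid]; ring
  have hS0 : S ≠ 0 := by
    intro h0
    rw [h0] at hTfac
    exact hT0 (by rw [hTfac]; ring)
  have ho0 : o ≠ 0 := by
    intro h0
    rw [h0] at hTfac
    exact hT0 (by rw [hTfac]; ring)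
  have hq0 : q ≠ 0 := by
    intro h0
    rw [h0] at hTfac
    exact hT0 (by rw [hTfac]; ring)
  -- local sizes
  have hZh : ∀ i, ‖D.σ i Z‖ ≤ ht D (Z, Y, c) i := fun i => ht_ge1 D (Z, Y, c) i
  have hXh : ∀ i, ‖D.σ i X‖ ≤ ht D (Z, Y, c) i := fun i => by
    rw [hX, map_neg, norm_neg]
    exact ht_ge3 D (Z, Y, c) i
  have hloc : ∀ i, ht D (Z, Y, c) i ≤ 2 * ‖(D.σ i X, D.σ i Z)‖ := by
    intro i
    rw [Prod.norm_def]
    simp only [ht]
    have h1 := le_max_left ‖D.σ i X‖ ‖D.σ i Z‖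
    have h3 := le_max_right ‖D.σ i X‖ ‖D.σ i Z‖
    have h4 : ‖D.σ i Y‖ ≤ ‖D.σ i X‖ + ‖D.σ i Z‖ := by
      rw [hY, map_sub]; exact norm_sub_le _ _
    have h5 : 0 ≤ ‖D.σ i X‖ := norm_nonneg _
    have h6 : ‖D.σ i c‖ = ‖D.σ i X‖ := by rw [hX, map_neg, norm_neg]
    rw [h6]
    refine max_le (max_le ?_ ?_) ?_ <;> linarith
  have hxi : ∀ i, D.σ i x = D.σ i X ^ 2 - D.σ i Z ^ 2 := by
    intro i
    rw [hx', map_sub, map_pow, map_pow]
  have hyi : ∀ i, D.σ i y = 2 * D.σ i X * D.σ i Z := by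
    intro i
    rw [hy, map_mul, map_mul, map_ofNat]
  have hxy2 : ∀ i, ‖(D.σ i x, D.σ i y)‖ ≤ 2 * ht D (Z, Y, c) i ^ 2 := by
    intro i
    have h0 := ht_nonneg D (Z, Y, c) i
    rw [Prod.norm_def]
    simp only
    refine max_le ?_ ?_
    · rw [hxi i]
      refine (norm_sub_le _ _).trans ?_
      rw [norm_pow, norm_pow]
      have h1 : ‖D.σ i X‖ ^ 2 ≤ ht D (Z, Y, c) i ^ 2 :=
        pow_le_pow_left₀ (norm_nonneg _) (hXh i) 2
      have h2 : ‖D.σ i Z‖ ^ 2 ≤ ht D (Z, Y, c) i ^ 2 :=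
        pow_le_pow_left₀ (norm_nonneg _) (hZh i) 2
      linarith
    · rw [hyi i, norm_mul, norm_mul]
      have h1 : ‖(2 : ℂ)‖ = 2 := by norm_num
      rw [h1]
      have h2 : ‖D.σ i X‖ * ‖D.σ i Z‖ ≤ ht D (Z, Y, c) i * ht D (Z, Y, c) i :=
        mul_le_mul (hXh i) (hZh i) (norm_nonneg _) h0
      nlinarith
  refine ⟨(T ^ 2, -H ^ 3, -(1728 * f ^ 5)), ⟨htri, ⟨T, H, f, ?_, ?_, ?_⟩, Or.inr (Or.inr ?_)⟩, ?_,
    (X + Z) * S * (g * H * o * q), ?_, ?_, 23, ?_⟩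
  · simp
  · simp
  · push_cast
    ring
  · have h1 : Z ∣ f := by rw [hf]; exact (hZy.mul_left x).mul_right g
    exact (((hNZ.trans h1).trans (dvd_pow_self f (by norm_num))).mul_left 1728).neg_right
  · intro i
    have h1 := hlow1 (D.σ i X, D.σ i Z)
    have h2 := hlow2 (D.σ i x, D.σ i y)
    simp only at h1 h2
    rw [← hxi i, ← hyi i] at h1
    have h3 : ‖(D.σ i X, D.σ i Z)‖ ^ 2 ≤ C₁ * ‖(D.σ i x, D.σ i y)‖ := by
      rw [Prod.norm_def (D.σ i x, D.σ i y)]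
      exact h1
    have h4 : max ‖1728 * (D.σ i x * D.σ i y * gf (D.σ i x ^ 5) (D.σ i y ^ 5)) ^ 5‖
        ‖Hf (D.σ i x ^ 5) (D.σ i y ^ 5) ^ 3‖ ≤ ht D (T ^ 2, -H ^ 3, -(1728 * f ^ 5)) i := by
      apply max_le
      · refine le_trans (le_of_eq ?_) (ht_ge3 D _ i)
        simp only
        rw [map_neg, norm_neg, map_mul, map_pow, map_ofNat, hf, map_mul, map_mul, hg, map_gf, hu,
          hv, map_pow, map_pow]
      · refine le_trans (le_of_eq ?_) (ht_ge2 D _ i)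
        simp only
        rw [map_neg, norm_neg, map_pow, hH, map_Hf, hu, hv, map_pow, map_pow]
    have h5 : ht D (Z, Y, c) i ^ 120 ≤ (2 * ‖(D.σ i X, D.σ i Z)‖) ^ 120 :=
      pow_le_pow_left₀ (ht_nonneg D _ i) (hloc i) 120
    have h6 : ‖(D.σ i X, D.σ i Z)‖ ^ 120 ≤ (C₁ * ‖(D.σ i x, D.σ i y)‖) ^ 60 := by
      have h7 := pow_le_pow_left₀ (by positivity) h3 60
      rwa [← pow_mul] at h7
    calc ht D (Z, Y, c) i ^ 120 ≤ (2 * ‖(D.σ i X, D.σ i Z)‖) ^ 120 := h5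
      _ = 2 ^ 120 * ‖(D.σ i X, D.σ i Z)‖ ^ 120 := mul_pow _ _ _
      _ ≤ 2 ^ 120 * (C₁ * ‖(D.σ i x, D.σ i y)‖) ^ 60 :=
          mul_le_mul_of_nonneg_left h6 (by positivity)
      _ = 2 ^ 120 * C₁ ^ 60 * ‖(D.σ i x, D.σ i y)‖ ^ 60 := by rw [mul_pow, mul_assoc]
      _ ≤ 2 ^ 120 * C₁ ^ 60 * (C₂ * ht D (T ^ 2, -H ^ 3, -(1728 * f ^ 5)) i) := by
          apply mul_le_mul_of_nonneg_left _ (by positivity)
          exact h2.trans (mul_le_mul_of_nonneg_left h4 hC₂.le)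
      _ = 2 ^ 120 * C₁ ^ 60 * C₂ * ht D (T ^ 2, -H ^ 3, -(1728 * f ^ 5)) i := by
          rw [mul_assoc (2 ^ 120 * C₁ ^ 60)]
      _ ≤ _ := by
          refine mul_le_mul_of_nonneg_right ?_ (ht_nonneg D _ i)
          rw [hK]
          have : 0 ≤ 4 * C₄ * 2 ^ 58 := by positivity
          linarith
  · exact mul_ne_zero (mul_ne_zero hXZ0 hS0)
      (mul_ne_zero (mul_ne_zero (mul_ne_zero hg0 hH0) ho0) hq0)
  · intro i
    have h0 := ht_nonneg D (Z, Y, c) i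
    have h1 := hup1 (D.σ i x, D.σ i y)
    simp only at h1
    have e1 : D.σ i (g * H * o * q) = gf (D.σ i x ^ 5) (D.σ i y ^ 5) *
        Hf (D.σ i x ^ 5) (D.σ i y ^ 5) * of' (D.σ i x) (D.σ i y) *
        qf (D.σ i x ^ 5) (D.σ i y ^ 5) := by
      rw [hg, hH, ho, hq, map_mul, map_mul, map_mul, map_gf, map_Hf, map_of, map_qf, hu, hv,
        map_pow, map_pow]
    rw [← e1] at h1
    have h2 : ‖D.σ i (g * H * o * q)‖ ≤ C₄ * (2 * ht D (Z, Y, c) i ^ 2) ^ 58 :=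
      h1.trans (mul_le_mul_of_nonneg_left (pow_le_pow_left₀ (norm_nonneg _) (hxy2 i) 58) hC₄.le)
    have h3 : ‖D.σ i (X + Z)‖ ≤ 2 * ht D (Z, Y, c) i := by
      rw [map_add]
      refine (norm_add_le _ _).trans ?_
      linarith [hXh i, hZh i]
    have h4 : ‖D.σ i S‖ ≤ 2 * ht D (Z, Y, c) i ^ 2 := by
      rw [hS, map_add, map_pow, map_pow]
      refine (norm_add_le _ _).trans ?_
      rw [norm_pow, norm_pow]
      have h5 : ‖D.σ i X‖ ^ 2 ≤ ht D (Z, Y, c) i ^ 2 :=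
        pow_le_pow_left₀ (norm_nonneg _) (hXh i) 2
      have h6 : ‖D.σ i Z‖ ^ 2 ≤ ht D (Z, Y, c) i ^ 2 :=
        pow_le_pow_left₀ (norm_nonneg _) (hZh i) 2
      linarith
    rw [map_mul, map_mul, norm_mul, norm_mul]
    calc ‖D.σ i (X + Z)‖ * ‖D.σ i S‖ * ‖D.σ i (g * H * o * q)‖
        ≤ (2 * ht D (Z, Y, c) i) * (2 * ht D (Z, Y, c) i ^ 2) *
          (C₄ * (2 * ht D (Z, Y, c) i ^ 2) ^ 58) := by gcongr
      _ = 4 * C₄ * 2 ^ 58 * ht D (Z, Y, c) i ^ 119 := by ring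
      _ ≤ _ := by
          refine mul_le_mul_of_nonneg_right ?_ (pow_nonneg h0 _)
          rw [hK]
          have : 0 ≤ 2 ^ 120 * C₁ ^ 60 * C₂ := by positivity
          linarith
  · -- divisibility
    simp only
    obtain ⟨m, hm⟩ : ∃ m : R, m = X * Y * Z * (X + Z) * g := ⟨_, rfl⟩
    obtain ⟨b, hb'⟩ : ∃ b : R, b = Z * Y * c * ((X + Z) * S * (g * H * o * q)) := ⟨_, rfl⟩
    rw [← hb']
    have hb2 : b = -(X * Y * Z * (X + Z) * g * H * S * o * q) := by rw [hb', hc']; ring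
    have hfm : f = 2 * m := by rw [hf, hm, hx, hy]; ring
    have d1 : (1728 * 32 : R) ∣ b ^ 11 := by
      have h1 : (1728 * 32 : R) ∣ 30 ^ 11 := ⟨3 ^ 8 * 5 ^ 11, by norm_num⟩
      have h2 : (30 : R) ∣ b := by
        have h3 : (30 : R) ∣ Z := by exact_mod_cast h30
        refine h3.trans ?_
        rw [hb']
        exact ((Dvd.intro _ rfl : Z ∣ Z * Y).mul_right c).mul_right _
      exact h1.trans (pow_dvd_pow_of_dvd h2 11)
    have d2 : m ^ 5 ∣ b ^ 5 := by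
      refine pow_dvd_pow_of_dvd ⟨-(H * S * o * q), ?_⟩ 5
      rw [hb2, hm]; ring
    have d3 : H ^ 3 ∣ b ^ 3 := by
      refine pow_dvd_pow_of_dvd ⟨-(X * Y * Z * (X + Z) * g * S * o * q), ?_⟩ 3
      rw [hb2]; ring
    have d4 : T ^ 2 ∣ b ^ 4 := by
      have h1 : T ∣ b ^ 2 := by
        refine ⟨(X * Y * Z * (X + Z) * g * H) ^ 2 * o * q, ?_⟩
        rw [hb2, hTfac]; ring
      have h2 := pow_dvd_pow_of_dvd h1 2
      rwa [← pow_mul] at h2
    have d5 := mul_dvd_mul (mul_dvd_mul (mul_dvd_mul d1 d2) d3) d4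
    rw [← pow_add, ← pow_add, ← pow_add] at d5
    refine dvd_trans (dvd_of_eq ?_) d5
    rw [hfm]
    ring

end Pool.Agent.N73.GA
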